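import Pool.Agent.H4.Cs3

set_option autoImplicit false

namespace Pool.Agent.Results.MP_68674a_lc.Dichotomy

open Pool.Agent.H11.PT Pool.Agent.H4.Cs

theorem result (L : ℕ) :
    (L ≤ 2 → InP (fun I => Valid L I ∧ CS I) ∧ InP fun I => Valid L I ∧ CS3 I) ∧
    (3 ≤ L → NPComplete (fun I => Valid L I ∧ CS I) ∧ NPComplete fun I => Valid L I ∧ CS3 I) :=
  ⟨inP, fun h => ⟨⟨np_CS L, (hard h).1⟩, np_CS3 L, (hard h).2⟩⟩

end Pool.Agent.Results.MP_68674a_lc.Dichotomy
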